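import Pool.Agent.V7H14.OW.Win

/-!
Numerical part: the probability that some family of disjoint subwords of logarithmic length is bad.
-/

set_option autoImplicit false

namespace Pool.Agent.V7H14.OW

open MeasureTheory ProbabilityTheory Filter

/-- all single subwords and pairs of disjoint subwords before the place `N` are good -/
def Good {n : ℕ} (x : ℕ → Fin n × Bool) (N μ K : ℕ) (L : ℝ) : Prop := GoodAt x 1 N μ K L ∧ GoodAt x 2 N μ K L

section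

variable {Ω : Type} [MeasurableSpace Ω] {P : Measure Ω} {n : ℕ} {ξ : ℕ → Ω → Fin n × Bool}

lemma bad_le (hn : 2 ≤ n) (h : Letters P ξ) (κ N μ K : ℕ) (A L : ℝ) (hN : 1 ≤ N) (hμ : 1 ≤ μ)
    (h3 : (N : ℝ) ^ 8 ≤ 3 ^ μ) (hK : (2 : ℝ) ^ K ≤ A * (N : ℝ) ^ κ) (hL : 4 * n * (κ + 6) * Real.log N ≤ L) :
    P {ω | ¬ Good (fun i => ξ i ω) N μ K L} ≤ ENNReal.ofReal (2 ^ n * (136 + 108 * A) / (N : ℝ) ^ 2) := by
  have hN1 : (1 : ℝ) ≤ N := by exact_mod_cast hN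
  have hN0 : (0 : ℝ) < N := by linarith
  have hn2 : (2 : ℝ) ≤ n := by exact_mod_cast hn
  have hn0 : (0 : ℝ) < n := by linarith
  have hA : 0 ≤ A := by
    have h1 : 0 < A * (N : ℝ) ^ κ := lt_of_lt_of_le (by positivity) hK
    have h2 : 0 < (N : ℝ) ^ κ := by positivity
    by_contra h4
    have h5 : A * (N : ℝ) ^ κ ≤ 0 := mul_nonpos_of_nonpos_of_nonneg (not_le.1 h4).le h2.le
    linarith
  have hlog : 0 ≤ Real.log N := Real.log_nonneg hN1
  set L' : ℝ := 4 * n * (κ + 6) * Real.log N with hL'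
  have hL0 : 0 ≤ L' := by positivity
  set L₀ : ℕ := ⌊L'⌋₊ with hL₀
  have h1 : (L₀ : ℝ) ≤ L := (Nat.floor_le hL0).trans hL
  have h2 : L' - 1 ≤ L₀ := by
    have := Nat.lt_floor_add_one L'
    linarith
  set q : ℝ := 1 - 1 / (4 * (n : ℝ)) with hq
  have hq0 : 0 ≤ q := by
    have : 1 / (4 * (n : ℝ)) ≤ 1 := by
      rw [div_le_one (by linarith)]
      linarith
    rw [hq]
    linarith
  have hqe : q ^ L₀ ≤ 3 * ((N : ℝ) ^ (κ + 6))⁻¹ := by
    have h4 : q ≤ Real.exp (-(1 / (4 * (n : ℝ)))) := by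
      have := Real.add_one_le_exp (-(1 / (4 * (n : ℝ))))
      rw [hq]
      linarith
    have h5 : q ^ L₀ ≤ Real.exp (-(1 / (4 * (n : ℝ))) * L₀) := by
      rw [mul_comm, Real.exp_nat_mul]
      exact pow_le_pow_left₀ hq0 h4 L₀
    have h6 : -(1 / (4 * (n : ℝ))) * L₀ ≤ 1 - (κ + 6) * Real.log N := by
      have h7 : (1 / (4 * (n : ℝ))) * (L' - 1) ≤ (1 / (4 * (n : ℝ))) * L₀ :=
        mul_le_mul_of_nonneg_left h2 (by positivity)
      have h8 : (1 / (4 * (n : ℝ))) * (L' - 1) = (κ + 6) * Real.log N - 1 / (4 * (n : ℝ)) := by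
        rw [hL']
        field_simp
      have h9 : 1 / (4 * (n : ℝ)) ≤ 1 := by
        rw [div_le_one (by linarith)]
        linarith
      rw [h8] at h7
      linarith
    have h7 : Real.exp (1 - (κ + 6) * Real.log N) = Real.exp 1 * ((N : ℝ) ^ (κ + 6))⁻¹ := by
      rw [Real.exp_sub, div_eq_mul_inv]
      congr 2
      have h8 : ((κ : ℝ) + 6) * Real.log N = ((κ + 6 : ℕ) : ℝ) * Real.log N := by
        push_cast
        ring
      rw [h8, Real.exp_nat_mul, Real.exp_log hN0]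
    refine h5.trans ((Real.exp_le_exp.2 h6).trans ?_)
    rw [h7]
    refine mul_le_mul_of_nonneg_right ?_ (by positivity)
    exact Real.exp_one_lt_three.le
  have h3' : 1 / (3 : ℝ) ^ μ ≤ 1 / (N : ℝ) ^ 8 := one_div_le_one_div_of_le (by positivity) h3
  have hKq : (2 : ℝ) ^ K * q ^ L₀ ≤ 3 * A / (N : ℝ) ^ 6 := by
    refine (mul_le_mul hK hqe (by positivity) (by positivity)).trans (le_of_eq ?_)
    rw [pow_add]
    field_simp
  have key : ∀ c₀ : ℕ, 0 < c₀ → P {ω | ¬ GoodAt (fun i => ξ i ω) c₀ N μ K L} ≤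
      ENNReal.ofReal ((2 * (N : ℝ)) ^ (2 * c₀) * (2 ^ n * ((2 * (c₀ : ℝ) ^ 2 + 3 * A * c₀) / (N : ℝ) ^ 6))) := by
    intro c₀ hc
    refine (goodAt_le hn h c₀ N μ K hc L hμ L₀ h1).trans (ENNReal.ofReal_le_ofReal ?_)
    have h4 : ((N : ℝ) + 1) ^ (2 * c₀) ≤ (2 * (N : ℝ)) ^ (2 * c₀) :=
      pow_le_pow_left₀ (by positivity) (by linarith) _
    refine mul_le_mul h4 ?_ (by positivity) (by positivity)
    refine mul_le_mul_of_nonneg_left ?_ (by positivity)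
    have h5 : 2 * ((c₀ : ℝ) * N) ^ 2 / 3 ^ μ ≤ 2 * (c₀ : ℝ) ^ 2 / (N : ℝ) ^ 6 := by
      have h6 : 2 * ((c₀ : ℝ) * N) ^ 2 / 3 ^ μ = 2 * ((c₀ : ℝ) * N) ^ 2 * (1 / 3 ^ μ) := by ring
      rw [h6]
      refine (mul_le_mul_of_nonneg_left h3' (by positivity)).trans (le_of_eq ?_)
      field_simp
    have h7 : 2 ^ K * ((c₀ : ℝ) * q ^ L₀) ≤ 3 * A * c₀ / (N : ℝ) ^ 6 := by
      have h8 : 2 ^ K * ((c₀ : ℝ) * q ^ L₀) = c₀ * (2 ^ K * q ^ L₀) := by ring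
      rw [h8]
      refine (mul_le_mul_of_nonneg_left hKq (by positivity)).trans (le_of_eq ?_)
      ring
    calc 2 * ((c₀ : ℝ) * N) ^ 2 / 3 ^ μ + 2 ^ K * ((c₀ : ℝ) * q ^ L₀) ≤
        2 * (c₀ : ℝ) ^ 2 / (N : ℝ) ^ 6 + 3 * A * c₀ / (N : ℝ) ^ 6 := add_le_add h5 h7
      _ = (2 * (c₀ : ℝ) ^ 2 + 3 * A * c₀) / (N : ℝ) ^ 6 := by ring
  have hsub : {ω | ¬ Good (fun i => ξ i ω) N μ K L} ⊆
      {ω | ¬ GoodAt (fun i => ξ i ω) 1 N μ K L} ∪ {ω | ¬ GoodAt (fun i => ξ i ω) 2 N μ K L} := by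
    intro ω hω
    by_contra h4
    simp only [Set.mem_union, Set.mem_ofPred_eq, not_or, not_not] at h4
    exact hω h4
  refine (measure_mono hsub).trans ((measure_union_le _ _).trans
    ((add_le_add (key 1 one_pos) (key 2 two_pos)).trans ?_))
  rw [← ENNReal.ofReal_add (by positivity) (by positivity)]
  refine ENNReal.ofReal_le_ofReal ?_
  have h4 : (2 * (N : ℝ)) ^ (2 * 1) * (2 ^ n * ((2 * ((1 : ℕ) : ℝ) ^ 2 + 3 * A * (1 : ℕ)) / (N : ℝ) ^ 6)) ≤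
      2 ^ n * (8 + 12 * A) / (N : ℝ) ^ 2 := by
    have h5 : (2 * (N : ℝ)) ^ (2 * 1) * (2 ^ n * ((2 * ((1 : ℕ) : ℝ) ^ 2 + 3 * A * (1 : ℕ)) / (N : ℝ) ^ 6)) =
        2 ^ n * (8 + 12 * A) / (N : ℝ) ^ 4 := by
      push_cast
      field_simp
      ring
    rw [h5]
    refine div_le_div_of_nonneg_left (by positivity) (by positivity) ?_
    exact pow_le_pow_right₀ hN1 (by norm_num)
  have h5 : (2 * (N : ℝ)) ^ (2 * 2) * (2 ^ n * ((2 * ((2 : ℕ) : ℝ) ^ 2 + 3 * A * (2 : ℕ)) / (N : ℝ) ^ 6)) =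
      2 ^ n * (128 + 96 * A) / (N : ℝ) ^ 2 := by
    push_cast
    field_simp
    ring
  rw [h5]
  refine (add_le_add_left h4 _).trans (le_of_eq ?_)
  ring

/-- almost surely, for all large `N`, all families of disjoint subwords of logarithmic length are good -/
lemma ae_good (hn : 2 ≤ n) (h : Letters P ξ) (κ : ℕ) (A : ℝ) (μ K : ℕ → ℕ) (hμ : ∀ N, 1 ≤ μ N)
    (h3 : ∀ N : ℕ, 1 ≤ N → (N : ℝ) ^ 8 ≤ 3 ^ (μ N)) (hK : ∀ N : ℕ, 1 ≤ N → (2 : ℝ) ^ (K N) ≤ A * (N : ℝ) ^ κ) :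
    ∀ᵐ ω ∂P, ∀ᶠ N : ℕ in atTop,
      Good (fun i => ξ i ω) N (μ N) (K N) (4 * n * (κ + 6) * Real.log N) := by
  have hsum : Summable fun N : ℕ => 2 ^ n * (136 + 108 * A) / ((N + 1 : ℕ) : ℝ) ^ 2 := by
    have h1 : Summable fun N : ℕ => 1 / (N : ℝ) ^ 2 := Real.summable_one_div_nat_pow.2 (by norm_num)
    have h2 := ((summable_nat_add_iff 1).2 h1).mul_left (2 ^ n * (136 + 108 * A))
    refine h2.congr fun N => ?_
    rw [mul_one_div]
  have h1 : ∑' N : ℕ, P {ω | ¬ Good (fun i => ξ i ω) (N + 1) (μ (N + 1)) (K (N + 1))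
      (4 * n * (κ + 6) * Real.log ((N + 1 : ℕ) : ℝ))} ≠ ⊤ := by
    refine ne_top_of_le_ne_top hsum.tsum_ofReal_ne_top (ENNReal.tsum_le_tsum fun N => ?_)
    exact bad_le hn h κ (N + 1) _ _ A _ (by omega) (hμ _) (h3 _ (by omega)) (hK _ (by omega)) le_rfl
  filter_upwards [ae_eventually_notMem h1] with ω hω
  rw [eventually_atTop] at hω ⊢
  obtain ⟨N₀, hN₀⟩ := hω
  refine ⟨N₀ + 1, fun N hN => ?_⟩
  obtain ⟨N', rfl⟩ : ∃ N', N = N' + 1 := ⟨N - 1, by omega⟩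
  have h2 := hN₀ N' (by omega)
  simp only [not_not] at h2
  exact h2

end

/-- the logarithmic length of the repetitions -/
noncomputable def mu (N : ℕ) : ℕ := ⌈8 * Real.log N⌉₊ + 1

lemma mu_pos (N : ℕ) : 1 ≤ mu N := by
  unfold mu
  omega

lemma mu_le (N : ℕ) (hN : 1 ≤ N) : (mu N : ℝ) ≤ 8 * Real.log N + 2 := by
  have hN1 : (1 : ℝ) ≤ N := by exact_mod_cast hN
  have h1 : 0 ≤ 8 * Real.log N := by
    have := Real.log_nonneg hN1
    linarith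
  have h2 := Nat.ceil_lt_add_one h1
  unfold mu
  push_cast
  linarith

lemma pow_mu (N : ℕ) (hN : 1 ≤ N) : (N : ℝ) ^ 8 ≤ 3 ^ mu N := by
  have hN1 : (1 : ℝ) ≤ N := by exact_mod_cast hN
  have hN0 : (0 : ℝ) < N := by linarith
  have h1 : 8 * Real.log N ≤ mu N := by
    have h2 := Nat.le_ceil (8 * Real.log N)
    unfold mu
    push_cast
    linarith
  have h2 : (N : ℝ) ^ 8 = Real.exp (8 * Real.log N) := by
    have h3 : 8 * Real.log N = ((8 : ℕ) : ℝ) * Real.log N := by norm_num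
    rw [h3, Real.exp_nat_mul, Real.exp_log hN0]
  rw [h2]
  have h3 : Real.exp (8 * Real.log N) ≤ Real.exp (mu N) := Real.exp_le_exp.2 h1
  refine h3.trans ?_
  have h4 : Real.exp (mu N) = Real.exp 1 ^ mu N := by
    rw [← Real.exp_nat_mul, mul_one]
  rw [h4]
  exact pow_le_pow_left₀ (Real.exp_pos _).le Real.exp_one_lt_three.le _

/-- powers of two whose exponents are of logarithmic size -/
lemma two_pow_le (N K κ b : ℕ) (a : ℝ) (hN : 1 ≤ N) (hK : (K : ℝ) ≤ a * Real.log N + b)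
    (ha : a * Real.log 2 ≤ κ) : (2 : ℝ) ^ K ≤ 2 ^ b * (N : ℝ) ^ κ := by
  have hN1 : (1 : ℝ) ≤ N := by exact_mod_cast hN
  have hN0 : (0 : ℝ) < N := by linarith
  have hlog : 0 ≤ Real.log N := Real.log_nonneg hN1
  have hl2 : 0 < Real.log 2 := Real.log_pos (by norm_num)
  have h1 : (2 : ℝ) ^ K = Real.exp (K * Real.log 2) := by
    rw [Real.exp_nat_mul, Real.exp_log (by norm_num)]
  have h2 : (2 : ℝ) ^ b * (N : ℝ) ^ κ = Real.exp (b * Real.log 2 + κ * Real.log N) := by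
    rw [Real.exp_add, Real.exp_nat_mul, Real.exp_nat_mul, Real.exp_log (by norm_num), Real.exp_log hN0]
  rw [h1, h2]
  refine Real.exp_le_exp.2 ?_
  have h3 : (K : ℝ) * Real.log 2 ≤ (a * Real.log N + b) * Real.log 2 := mul_le_mul_of_nonneg_right hK hl2.le
  have h4 : a * Real.log 2 * Real.log N ≤ κ * Real.log N := mul_le_mul_of_nonneg_right ha hlog
  nlinarith [h3, h4]

end Pool.Agent.V7H14.OW
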