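import Pool.Agent.N993.WX.Fin

/-!
One random infinite word: all families of disjoint subwords of logarithmic length are hereditarily free of repetitions.
-/

set_option autoImplicit false

namespace Pool.Agent.V7H14.OW

open MeasureTheory ProbabilityTheory
open Pool.Agent.N993.WT (RW)
open Pool.Agent.N993.WU (NoRep)
open Pool.Agent.N993.WX (Hereditary red frw)

/-- The letters `ξ 0, ξ 1, …` are independent and uniformly distributed on the letters `x_i^(±1)`, `i < n`. -/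
structure Letters {Ω : Type} [MeasurableSpace Ω] (P : Measure Ω) {n : ℕ} (ξ : ℕ → Ω → Fin n × Bool) : Prop where
  meas : ∀ i, Measurable (ξ i)
  indep : iIndepFun ξ P
  unif : ∀ i y, P {ω | ξ i ω = y} = ENNReal.ofReal (1 / (2 * n))

/-- the subword of length `ℓ` of the infinite word `x` which begins at the place `p` -/
def win {n : ℕ} (x : ℕ → Fin n × Bool) (p ℓ : ℕ) : List (Fin n × Bool) := List.ofFn fun i : Fin ℓ => x (p + i)

/-- The subwords `[p t, p t + ℓ t)` are pairwise disjoint, lie before the place `N` and have length at least `L`. -/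
structure Windows {I : Type} (p ℓ : I → ℕ) (N : ℕ) (L : ℝ) : Prop where
  le : ∀ t, p t + ℓ t ≤ N
  long : ∀ t, L ≤ ℓ t
  disj : ∀ t t', t ≠ t' → p t + ℓ t ≤ p t' ∨ p t' + ℓ t' ≤ p t

section

variable {Ω : Type} [MeasurableSpace Ω] {P : Measure Ω} {n : ℕ}
  {ξ : ℕ → Ω → Fin n × Bool}

lemma cylinder (h : Letters P ξ) {S : Type} [Fintype S] (φ : S → ℕ) (hφ : Function.Injective φ)
    (x : S → Fin n × Bool) : P {ω | ∀ s, ξ (φ s) ω = x s} = ENNReal.ofReal ((1 / (2 * n)) ^ Fintype.card S) := by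
  classical
  have h1 : iIndepFun (fun s : S => ξ (φ s)) P := h.indep.precomp hφ
  have h2 := h1.measure_inter_preimage_eq_mul Finset.univ (sets := fun s => {x s})
    (fun s _ => measurableSet_singleton _)
  have h3 : {ω | ∀ s, ξ (φ s) ω = x s} = ⋂ s ∈ (Finset.univ : Finset S), ξ (φ s) ⁻¹' {x s} := by
    ext ω
    simp
  rw [h3, h2]
  have h4 : ∀ s ∈ (Finset.univ : Finset S), P (ξ (φ s) ⁻¹' {x s}) = ENNReal.ofReal (1 / (2 * n)) :=
    fun s _ => h.unif (φ s) (x s)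
  rw [Finset.prod_congr rfl h4, Finset.prod_const, Finset.card_univ, ENNReal.ofReal_pow (by positivity)]

lemma event_le (h : Letters P ξ) {S : Type} [Fintype S] (φ : S → ℕ) (hφ : Function.Injective φ)
    (Q : (S → Fin n × Bool) → Prop) :
    P {ω | Q fun s => ξ (φ s) ω} ≤
      ENNReal.ofReal ((Nat.card {x : S → Fin n × Bool // Q x} : ℝ) * (1 / (2 * n)) ^ Fintype.card S) := by
  classical
  have h1 : {ω | Q fun s => ξ (φ s) ω} ⊆
      ⋃ x ∈ (Finset.univ.filter fun x : S → Fin n × Bool => Q x), {ω | ∀ s, ξ (φ s) ω = x s} := by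
    intro ω hω
    rw [Set.mem_iUnion₂]
    refine ⟨fun s => ξ (φ s) ω, ?_, fun s => rfl⟩
    rw [Finset.mem_filter]
    exact ⟨Finset.mem_univ _, hω⟩
  refine (measure_mono h1).trans ((measure_biUnion_finset_le _ _).trans ?_)
  rw [Finset.sum_congr rfl fun x _ => cylinder h φ hφ x, Finset.sum_const, nsmul_eq_mul,
    ENNReal.ofReal_mul (by positivity)]
  refine mul_le_mul' (le_of_eq ?_) le_rfl
  rw [Nat.card_eq_fintype_card, Fintype.card_subtype, ENNReal.ofReal_natCast]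

/-- one family of disjoint subwords -/
lemma family_le (hn : 2 ≤ n) (h : Letters P ξ) {m : ℕ} (c : Fin m → ℕ) (hc : ∀ j, 0 < c j)
    (p ℓ : ((j : Fin m) × Fin (c j)) → ℕ) (hd : ∀ t t', t ≠ t' → p t + ℓ t ≤ p t' ∨ p t' + ℓ t' ≤ p t)
    (μ K : ℕ) (hμ : 1 ≤ μ) :
    P {ω | ¬ Hereditary (fun t => win (fun i => ξ i ω) (p t) (ℓ t)) μ K} ≤
      ENNReal.ofReal (2 ^ n * (2 * (∑ t, (ℓ t : ℝ)) ^ 2 / 3 ^ μ + 2 ^ K * ∑ t, (1 - 1 / (4 * (n : ℝ))) ^ (ℓ t))) := by
  classical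
  have hn0 : (0 : ℝ) < n := by exact_mod_cast (by omega : 0 < n)
  let φ : (Σ t : ((j : Fin m) × Fin (c j)), Fin (ℓ t)) → ℕ := fun z => p z.1 + z.2
  have hφ : Function.Injective φ := by
    rintro ⟨t, i⟩ ⟨t', i'⟩ hz
    change p t + (i : ℕ) = p t' + (i' : ℕ) at hz
    have hi := i.2
    have hi' := i'.2
    by_cases ht : t = t'
    · subst ht
      have : i = i' := Fin.ext (by omega)
      rw [this]
    · exfalso
      rcases hd t t' ht with h1 | h1 <;> omega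
  let Q : ((Σ t : ((j : Fin m) × Fin (c j)), Fin (ℓ t)) → Fin n × Bool) → Prop := fun x =>
    ¬ Hereditary (fun t => List.ofFn fun i : Fin (ℓ t) => x ⟨t, i⟩) μ K
  refine (event_le h φ hφ Q).trans (ENNReal.ofReal_le_ofReal ?_)
  have h1 : Nat.card {x // Q x} = Nat.card {u : ∀ t, Fin (ℓ t) → Fin n × Bool //
      ¬ Hereditary (fun t => List.ofFn (u t)) μ K} := by
    refine Nat.card_congr ((Equiv.piCurry (fun (t : ((j : Fin m) × Fin (c j))) (_ : Fin (ℓ t)) =>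
      Fin n × Bool)).subtypeEquiv ?_)
    intro x
    exact Iff.rfl
  have h2 := Pool.Agent.N993.WX.rare Pool.Agent.N323.WX.t_tail
    (Pool.Agent.N499.WX.t_rep Pool.Agent.N562.WX.t_unif Pool.Agent.N222.WX.t_cnty) n hn m c hc ℓ μ K hμ
  have h3 : (Nat.card (∀ t, Fin (ℓ t) → Fin n × Bool) : ℝ) =
      (2 * (n : ℝ)) ^ Fintype.card (Σ t : ((j : Fin m) × Fin (c j)), Fin (ℓ t)) := by
    have h4 : Nat.card (∀ t, Fin (ℓ t) → Fin n × Bool) =
        Nat.card ((Σ t : ((j : Fin m) × Fin (c j)), Fin (ℓ t)) → Fin n × Bool) :=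
      (Nat.card_congr (Equiv.piCurry (fun (t : ((j : Fin m) × Fin (c j))) (_ : Fin (ℓ t)) =>
        Fin n × Bool))).symm
    rw [h4, Nat.card_eq_fintype_card, Fintype.card_fun, Fintype.card_prod, Fintype.card_fin, Fintype.card_bool]
    push_cast
    ring
  rw [h1]
  rw [h3] at h2
  have h5 : (0 : ℝ) ≤ (1 / (2 * n)) ^ Fintype.card (Σ t : ((j : Fin m) × Fin (c j)), Fin (ℓ t)) := by positivity
  refine (mul_le_mul_of_nonneg_right h2 h5).trans (le_of_eq ?_)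
  rw [mul_assoc, ← mul_pow, show 2 * (n : ℝ) * (1 / (2 * n)) = 1 by field_simp, one_pow, mul_one]

/-- all families of `c₀` disjoint subwords of length at least `L` before the place `N` are good -/
def GoodAt (x : ℕ → Fin n × Bool) (c₀ N μ K : ℕ) (L : ℝ) : Prop :=
  ∀ p ℓ : ((_ : Fin 1) × Fin c₀) → ℕ, Windows p ℓ N L → Hereditary (fun t => win x (p t) (ℓ t)) μ K

lemma goodAt_le (hn : 2 ≤ n) (h : Letters P ξ) (c₀ N μ K : ℕ) (hc : 0 < c₀) (L : ℝ) (hμ : 1 ≤ μ) (L₀ : ℕ)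
    (hL : (L₀ : ℝ) ≤ L) :
    P {ω | ¬ GoodAt (fun i => ξ i ω) c₀ N μ K L} ≤
      ENNReal.ofReal (((N : ℝ) + 1) ^ (2 * c₀) *
        (2 ^ n * (2 * ((c₀ : ℝ) * N) ^ 2 / 3 ^ μ + 2 ^ K * (c₀ * (1 - 1 / (4 * (n : ℝ))) ^ L₀)))) := by
  classical
  have hn0 : (2 : ℝ) ≤ n := by exact_mod_cast hn
  have hq0 : (0 : ℝ) ≤ 1 - 1 / (4 * (n : ℝ)) := by
    have : 1 / (4 * (n : ℝ)) ≤ 1 := by
      rw [div_le_one (by linarith)]
      linarith
    linarith
  have hq1 : 1 - 1 / (4 * (n : ℝ)) ≤ 1 := by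
    have : 0 ≤ 1 / (4 * (n : ℝ)) := by positivity
    linarith
  set B : ℝ := 2 ^ n * (2 * ((c₀ : ℝ) * N) ^ 2 / 3 ^ μ + 2 ^ K * (c₀ * (1 - 1 / (4 * (n : ℝ))) ^ L₀)) with hB
  have hB0 : 0 ≤ B := by positivity
  let I : Type := (_ : Fin 1) × Fin c₀
  let F : Finset (I → Fin (N + 1) × Fin (N + 1)) := Finset.univ.filter fun z =>
    Windows (fun t => ((z t).1 : ℕ)) (fun t => ((z t).2 : ℕ)) N L
  have hsub : {ω | ¬ GoodAt (fun i => ξ i ω) c₀ N μ K L} ⊆
      ⋃ z ∈ F, {ω | ¬ Hereditary (fun t : I => win (fun i => ξ i ω) (z t).1 (z t).2) μ K} := by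
    intro ω hω
    unfold GoodAt at hω
    rw [Set.mem_ofPred_eq] at hω
    push Not at hω
    obtain ⟨p, ℓ, hw, hbad⟩ := hω
    rw [Set.mem_iUnion₂]
    refine ⟨fun t => (⟨p t, by have := hw.le t; omega⟩, ⟨ℓ t, by have := hw.le t; omega⟩), ?_, hbad⟩
    rw [Finset.mem_filter]
    exact ⟨Finset.mem_univ _, hw⟩
  refine (measure_mono hsub).trans ((measure_biUnion_finset_le _ _).trans ?_)
  have hone : ∀ z ∈ F, P {ω | ¬ Hereditary (fun t : I => win (fun i => ξ i ω) (z t).1 (z t).2) μ K} ≤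
      ENNReal.ofReal B := by
    intro z hz
    rw [Finset.mem_filter] at hz
    have hw := hz.2
    refine (family_le hn h (m := 1) (fun _ => c₀) (fun _ => hc) (fun t => ((z t).1 : ℕ)) (fun t => ((z t).2 : ℕ))
      hw.disj μ K hμ).trans (ENNReal.ofReal_le_ofReal ?_)
    have hcard : (Fintype.card I : ℝ) = c₀ := by
      simp [I]
    have h1 : ∑ t : I, (((z t).2 : ℕ) : ℝ) ≤ c₀ * N := by
      refine (Finset.sum_le_card_nsmul _ _ (N : ℝ) fun t _ => ?_).trans ?_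
      · have := (z t).2.2
        exact_mod_cast (by omega : ((z t).2 : ℕ) ≤ N)
      · rw [Finset.card_univ, nsmul_eq_mul, hcard]
    have h2 : ∑ t : I, (1 - 1 / (4 * (n : ℝ))) ^ ((z t).2 : ℕ) ≤ c₀ * (1 - 1 / (4 * (n : ℝ))) ^ L₀ := by
      refine (Finset.sum_le_card_nsmul _ _ ((1 - 1 / (4 * (n : ℝ))) ^ L₀) fun t _ => ?_).trans ?_
      · refine pow_le_pow_of_le_one hq0 hq1 ?_
        have h3 : (L₀ : ℝ) ≤ (((z t).2 : ℕ) : ℝ) := hL.trans (hw.long t)
        exact_mod_cast h3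
      · rw [Finset.card_univ, nsmul_eq_mul, hcard]
    have h0 : 0 ≤ ∑ t : I, (((z t).2 : ℕ) : ℝ) := Finset.sum_nonneg fun t _ => Nat.cast_nonneg _
    have h3 : (∑ t : I, (((z t).2 : ℕ) : ℝ)) ^ 2 ≤ ((c₀ : ℝ) * N) ^ 2 := pow_le_pow_left₀ h0 h1 2
    rw [hB]
    gcongr
  refine (Finset.sum_le_card_nsmul _ _ _ hone).trans ?_
  have hF : (F.card : ℝ) ≤ ((N : ℝ) + 1) ^ (2 * c₀) := by
    have h1 : F.card ≤ Fintype.card (I → Fin (N + 1) × Fin (N + 1)) := Finset.card_le_univ _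
    have h2 : Fintype.card (I → Fin (N + 1) × Fin (N + 1)) = ((N + 1) * (N + 1)) ^ c₀ := by
      rw [Fintype.card_fun, Fintype.card_prod, Fintype.card_fin]
      congr 1
      simp [I]
    rw [h2] at h1
    have h3 : (F.card : ℝ) ≤ (((N + 1) * (N + 1)) ^ c₀ : ℕ) := by exact_mod_cast h1
    refine h3.trans (le_of_eq ?_)
    push_cast
    rw [pow_mul, pow_two]
  rw [nsmul_eq_mul, ENNReal.ofReal_mul (by positivity : (0 : ℝ) ≤ ((N : ℝ) + 1) ^ (2 * c₀))]
  have hF' : (F.card : ENNReal) ≤ ENNReal.ofReal (((N : ℝ) + 1) ^ (2 * c₀)) := by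
    rw [← ENNReal.ofReal_natCast]
    exact ENNReal.ofReal_le_ofReal hF
  exact mul_le_mul' hF' le_rfl

end

/-- arbitrary families of subwords, from single subwords and pairs of subwords -/
theorem hereditary_of {n : ℕ} {x : ℕ → Fin n × Bool} {N μ K : ℕ} {L : ℝ} (h1 : GoodAt x 1 N μ K L)
    (h2 : GoodAt x 2 N μ K L) {I : Type} (p ℓ : I → ℕ) (hw : Windows p ℓ N L) :
    Hereditary (fun t => win x (p t) (ℓ t)) μ K := by
  have hs : ∀ t : I, Hereditary (fun _ : ((_ : Fin 1) × Fin 1) => win x (p t) (ℓ t)) μ K := by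
    intro t
    refine h1 (fun _ => p t) (fun _ => ℓ t) ⟨fun _ => hw.le t, fun _ => hw.long t, fun a b hab => ?_⟩
    refine absurd ?_ hab
    rcases a with ⟨a, a'⟩
    rcases b with ⟨b, b'⟩
    have h3 : a = b := Subsingleton.elim _ _
    subst h3
    have h4 : a' = b' := Subsingleton.elim (α := Fin 1) _ _
    rw [h4]
  intro Y hY
  refine ⟨fun t => (hs t Y hY).1 ⟨0, 0⟩, ?_⟩
  intro t t' i i' hi hi'
  by_cases ht : t = t'
  · subst ht
    obtain ⟨h3, h4⟩ := (hs t Y hY).2 ⟨0, 0⟩ ⟨0, 0⟩ i i' hi hi'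
    exact ⟨fun h5 => ⟨rfl, (h3 h5).2⟩, h4⟩
  · have hp := h2 (fun z => ![p t, p t'] z.2) (fun z => ![ℓ t, ℓ t'] z.2) ⟨?_, ?_, ?_⟩
    · obtain ⟨h3, h4⟩ := (hp Y hY).2 ⟨0, 0⟩ ⟨0, 1⟩ i i' hi hi'
      refine ⟨fun h5 => ?_, h4⟩
      have h6 := (h3 h5).1
      simp at h6
    · rintro ⟨j, k⟩
      fin_cases k
      · exact hw.le t
      · exact hw.le t'
    · rintro ⟨j, k⟩
      fin_cases k
      · exact hw.long t
      · exact hw.long t'
    · rintro ⟨j, k⟩ ⟨j', k'⟩ hne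
      have hj : j = j' := Subsingleton.elim _ _
      subst hj
      fin_cases k <;> fin_cases k'
      · exact absurd rfl hne
      · exact hw.disj t t' ht
      · exact hw.disj t' t (Ne.symm ht)
      · exact absurd rfl hne

end Pool.Agent.V7H14.OW
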